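import Pool.Agent.P.MP_08e617_lc.D4.Alg
import Pool.Agent.P.MP_08e617_lc.D4.CorePf

namespace Pool.Agent.Results.MP_08e617_lc.DepthFour

open Pool.Agent.P.MP_08e617_lc Pool.Agent.P.MP_08e617_lc.D4

/-- For every `k` a deterministic polynomial-time Turing machine decides singularity of every input
whose determinant is algebraic over `k` products of factors, each factor a polynomial in `k` basic
polynomials. -/
theorem result (k : ℕ) : ∃ f : List (List (List (ℚ × List ℕ))) → Bool,
    Nonempty (Turing.TM2ComputableInPolyTime encInput Computability.encodeBool f) ∧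
    ∀ (I : List (List (List (ℚ × List ℕ)))) (L : Fin k → List (MvPolynomial ℕ ℚ)),
      (∀ j, ∀ Q ∈ L j, Factor k ((encInput I).length ^ k) Q) →
      IsAlgebraic (Algebra.adjoin ℚ (Set.range fun j => (L j).prod)) (polyMatrix I).det →
        (f I = true ↔ (polyMatrix I).det = 0) :=
  main core k

end Pool.Agent.Results.MP_08e617_lc.DepthFour
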