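import Pool.Agent.P.MP_08e617_lc.HdI

namespace Pool.Agent.Results.MP_08e617_lc.HiddenRankTwo

open Pool.Agent.P.MP_08e617_lc

/-- A deterministic polynomial-time Turing machine decides singularity of every input whose matrix
is `A₀ + ∑ x_i A_i` with `A₀` arbitrary and the complex span of the `A_i` spanned by its members of
rank at most two (which are not part of the input). -/
theorem result : ∃ f : List (List (List (ℚ × List ℕ))) → Bool,
    Nonempty (Turing.TM2ComputableInPolyTime encInput Computability.encodeBool f) ∧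
    ∀ (I : List (List (List (ℚ × List ℕ)))) (k : ℕ) (A₀ : Matrix (Fin I.length) (Fin I.length) ℚ)
      (A : ℕ → Matrix (Fin I.length) (Fin I.length) ℚ),
      (∀ i < k, (A i).map Rat.cast ∈ Submodule.span ℂ {C : Matrix (Fin I.length) (Fin I.length) ℂ |
        C ∈ Submodule.span ℂ ((fun j => (A j).map Rat.cast) '' Set.Iio k) ∧ C.rank ≤ 2}) →
      polyMatrix I = pencil k A₀ A → (f I = true ↔ (polyMatrix I).det = 0) :=
  ⟨_, encInput_eq ▸ (Hd.pt_algH _ _).toTM2, Hd.algH_correct (ℓ := 56) (by norm_num) rfl⟩

end Pool.Agent.Results.MP_08e617_lc.HiddenRankTwo
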