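import Pool.Agent.P.MP_08e617_lc.ObB

namespace Pool.Agent.Results.MP_08e617_lc.ObliviousBP

open Pool.Agent.P.MP_08e617_lc

/-- One deterministic Turing machine, given the matrix and a number `s`, runs in time polynomial in
`(N + s + 2) ^ (s + 1)` and decides singularity whenever the determinant is computed by an
oblivious branching program with bounded reads whose parameters are small against `s`. -/
theorem result : ∃ (tm : Turing.TM2ComputableAux Bool Bool) (q : Polynomial ℕ)
    (g : List (List (List (ℚ × List ℕ))) → ℕ → Bool),
    (∀ (I : List (List (List (ℚ × List ℕ)))) (s : ℕ), Nonempty (Turing.TM2OutputsInTime tm.tm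
      ((encPair (encInput I) (List.replicate s true)).map tm.inputAlphabet.invFun)
      (some ((Computability.encodeBool (g I s)).map tm.outputAlphabet.invFun))
      (q.eval (((encInput I).length + s + 2) ^ (s + 1))))) ∧
    ∀ (I : List (List (List (ℚ × List ℕ)))) (s k w b r c m : ℕ),
      OblBP k w b r (MvPolynomial.map (algebraMap ℚ ℂ) (polyMatrix I).det) → 0 < c →
      k * b * c ≤ s → w ^ (2 * k) < 2 ^ (m + 1) → m * (r / c + 1 + k).choose k ≤ s →
      (g I s = true ↔ (polyMatrix I).det = 0) :=
  Ob.main

end Pool.Agent.Results.MP_08e617_lc.ObliviousBP
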