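import Pool.Agent.P.MP_08e617_lc.RkN

namespace Pool.Agent.Results.MP_08e617_lc.ReadKWidth

open Pool.Agent.P.MP_08e617_lc

/-- For all `k` and `w` a deterministic polynomial-time Turing machine decides singularity of every
square matrix of arithmetic formulas (leaves are sparse polynomials) in which every variable is read
at most `k` times and whose nonzero pattern has branch-width at most `w`. -/
theorem result (k w : ℕ) : ∃ f : List (List Pool.Agent.P.MP_08e617_lc.Frm) → Bool,
    Nonempty (Turing.TM2ComputableInPolyTime encFrm Computability.encodeBool f) ∧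
    ∀ J : List (List Pool.Agent.P.MP_08e617_lc.Frm),
      ReadsLE (J.flatten.flatMap Pool.Agent.P.MP_08e617_lc.Frm.leaves) k →
      BranchLE (frmMatrix J) w → (f J = true ↔ (frmMatrix J).det = 0) :=
  Rk.main_frm k w

end Pool.Agent.Results.MP_08e617_lc.ReadKWidth
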